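import Pool.Agent.W2helper49.LW.Defs

/-!
# The operator Q on rotation-equivariant building blocks (piece LW2)
-/

set_option autoImplicit false
open scoped ContDiff

namespace Pool.Agent.W2helper10.LW

open Pool.Agent.W2helper49.LW

noncomputable section

lemma normSq_contDiff {n : WithTop ℕ∞} : ContDiff ℝ n (fun w : ℂ => Complex.normSq w) := by
  have : (fun w : ℂ => Complex.normSq w) = fun w => Complex.reCLM w * Complex.reCLM w + Complex.imCLM w * Complex.imCLM w := by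
    funext w; simp [Complex.normSq_apply]
  rw [this]
  exact ((Complex.reCLM.contDiff).mul (Complex.reCLM.contDiff)).add
    ((Complex.imCLM.contDiff).mul (Complex.imCLM.contDiff))

lemma line_hasDerivAt (z a : ℂ) (t : ℝ) : HasDerivAt (fun t : ℝ => z + (t : ℂ) * a) a t := by
  have h1 : HasDerivAt (fun t : ℝ => (t : ℂ)) 1 t := Complex.ofRealCLM.hasDerivAt (x := t)
  simpa using (h1.mul_const a).const_add z

lemma normSq_line (z a : ℂ) : HasDerivAt (fun t : ℝ => Complex.normSq (z + (t : ℂ) * a))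
    (2 * (z.re * a.re + z.im * a.im)) 0 := by
  have e : (fun t : ℝ => Complex.normSq (z + (t : ℂ) * a)) = fun t : ℝ =>
      (z.re + t * a.re) * (z.re + t * a.re) + (z.im + t * a.im) * (z.im + t * a.im) := by
    funext t; simp [Complex.normSq_apply]
  rw [e]
  have hr : HasDerivAt (fun t : ℝ => z.re + t * a.re) a.re 0 := by
    simpa using ((hasDerivAt_id (0 : ℝ)).mul_const a.re).const_add z.re
  have hi : HasDerivAt (fun t : ℝ => z.im + t * a.im) a.im 0 := by
    simpa using ((hasDerivAt_id (0 : ℝ)).mul_const a.im).const_add z.im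
  refine ((hr.mul hr).add (hi.mul hi)).congr_deriv ?_
  simp; ring

lemma pow_line (z a : ℂ) (n : ℕ) : HasDerivAt (fun t : ℝ => (z + (t : ℂ) * a) ^ n)
    ((n : ℂ) * z ^ (n - 1) * a) 0 := by
  have := (line_hasDerivAt z a 0).fun_pow n
  refine this.congr_deriv ?_
  simp

lemma re_line {g : ℝ → ℂ} {g' : ℂ} {t : ℝ} (h : HasDerivAt g g' t) :
    HasDerivAt (fun t => (g t).re) g'.re t := by
  have := (Complex.reCLM.hasFDerivAt (x := g t)).comp_hasDerivAt t h
  simpa [Function.comp_def] using this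

/-- derivative of `h s / s ^ j` -/
lemma H_deriv {h h1 : ℝ → ℝ} {s : ℝ} (hs : 0 < s) (hh : HasDerivAt h (h1 s) s) (j : ℕ) :
    HasDerivAt (fun s => h s / s ^ j) (h1 s / s ^ j - j * h s / s ^ (j + 1)) s := by
  refine (hh.div (hasDerivAt_pow j s) (pow_ne_zero _ hs.ne')).congr_deriv ?_
  have hs' := hs.ne'
  cases j with
  | zero => simp
  | succ i =>
    simp only [Nat.add_sub_cancel]
    field_simp
    ring

/-- first derivative of the block -/
def gg (j : ℕ) (h h1 : ℝ → ℝ) (b w : ℂ) : ℝ :=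
  (h1 (Complex.normSq w) / Complex.normSq w ^ j - j * h (Complex.normSq w) / Complex.normSq w ^ (j + 1)) *
    (2 * (w.re * b.re + w.im * b.im)) * (w ^ (2 * j + 1)).re +
  (h (Complex.normSq w) / Complex.normSq w ^ j) * (((2 * j + 1 : ℕ) : ℂ) * w ^ (2 * j) * b).re

lemma first_line (j : ℕ) {h h1 : ℝ → ℝ} (hh : ∀ s, 0 < s → HasDerivAt h (h1 s) s) {w : ℂ} (hw : w ≠ 0) (b : ℂ) :
    HasDerivAt (fun t : ℝ => h (Complex.normSq (w + (t : ℂ) * b)) / Complex.normSq (w + (t : ℂ) * b) ^ j *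
      ((w + (t : ℂ) * b) ^ (2 * j + 1)).re) (gg j h h1 b w) 0 := by
  have hs : 0 < Complex.normSq w := Complex.normSq_pos.2 hw
  have e1 := H_deriv hs (hh _ hs) j
  have e1' : HasDerivAt (fun s => h s / s ^ j) (h1 (Complex.normSq w) / Complex.normSq w ^ j -
      j * h (Complex.normSq w) / Complex.normSq w ^ (j + 1)) (Complex.normSq (w + ((0 : ℝ) : ℂ) * b)) := by
    simpa using e1
  have e2 := e1'.comp (0 : ℝ) (normSq_line w b)
  have e3 := re_line (pow_line w b (2 * j + 1))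
  refine (e2.mul e3).congr_deriv ?_
  simp only [Function.comp_def, Complex.ofReal_zero, zero_mul, add_zero, gg, Nat.add_sub_cancel]

/-- derivative of `h1 s / s ^ j - j h s / s ^ (j + 1)` -/
lemma H1_deriv {h h1 h2 : ℝ → ℝ} {s : ℝ} (hs : 0 < s) (hh : HasDerivAt h (h1 s) s)
    (hh1 : HasDerivAt h1 (h2 s) s) (j : ℕ) :
    HasDerivAt (fun s => h1 s / s ^ j - j * h s / s ^ (j + 1))
      (h2 s / s ^ j - 2 * j * h1 s / s ^ (j + 1) + j * (j + 1) * h s / s ^ (j + 2)) s := by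
  have e1 := H_deriv hs hh1 j
  have e2 := (H_deriv hs hh (j + 1)).const_mul (j : ℝ)
  have e3 := e1.sub e2
  have e4 : HasDerivAt (fun s => h1 s / s ^ j - j * h s / s ^ (j + 1))
      (h2 s / s ^ j - j * h1 s / s ^ (j + 1) -
        (j : ℝ) * (h1 s / s ^ (j + 1) - ((j + 1 : ℕ) : ℝ) * h s / s ^ (j + 1 + 1))) s := by
    refine e3.congr_of_eventuallyEq (Filter.Eventually.of_forall fun x => ?_)
    simp only [Pi.sub_apply]
    ring
  refine e4.congr_deriv ?_
  push_cast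
  ring

/-- second derivative of the block -/
def TT (j : ℕ) (h h1 h2 : ℝ → ℝ) (a b w : ℂ) : ℝ :=
  (h2 (Complex.normSq w) / Complex.normSq w ^ j - 2 * j * h1 (Complex.normSq w) / Complex.normSq w ^ (j + 1) +
      j * (j + 1) * h (Complex.normSq w) / Complex.normSq w ^ (j + 2)) *
    (2 * (w.re * a.re + w.im * a.im)) * (2 * (w.re * b.re + w.im * b.im)) * (w ^ (2 * j + 1)).re +
  (h1 (Complex.normSq w) / Complex.normSq w ^ j - j * h (Complex.normSq w) / Complex.normSq w ^ (j + 1)) *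
    (2 * (a.re * b.re + a.im * b.im)) * (w ^ (2 * j + 1)).re +
  (h1 (Complex.normSq w) / Complex.normSq w ^ j - j * h (Complex.normSq w) / Complex.normSq w ^ (j + 1)) *
    (2 * (w.re * b.re + w.im * b.im)) * (((2 * j + 1 : ℕ) : ℂ) * w ^ (2 * j) * a).re +
  (h1 (Complex.normSq w) / Complex.normSq w ^ j - j * h (Complex.normSq w) / Complex.normSq w ^ (j + 1)) *
    (2 * (w.re * a.re + w.im * a.im)) * (((2 * j + 1 : ℕ) : ℂ) * w ^ (2 * j) * b).re +
  (h (Complex.normSq w) / Complex.normSq w ^ j) *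
    (((2 * j + 1 : ℕ) : ℂ) * (((2 * j : ℕ) : ℂ) * w ^ (2 * j - 1) * a) * b).re

lemma second_line (j : ℕ) {h h1 h2 : ℝ → ℝ} (hh : ∀ s, 0 < s → HasDerivAt h (h1 s) s)
    (hh1 : ∀ s, 0 < s → HasDerivAt h1 (h2 s) s) {w : ℂ} (hw : w ≠ 0) (a b : ℂ) :
    HasDerivAt (fun t : ℝ => gg j h h1 b (w + (t : ℂ) * a)) (TT j h h1 h2 a b w) 0 := by
  have hs : 0 < Complex.normSq w := Complex.normSq_pos.2 hw
  have e0 : HasDerivAt (fun s => h s / s ^ j) (h1 (Complex.normSq w) / Complex.normSq w ^ j -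
      j * h (Complex.normSq w) / Complex.normSq w ^ (j + 1)) (Complex.normSq (w + ((0 : ℝ) : ℂ) * a)) := by
    simpa using H_deriv hs (hh _ hs) j
  have e1 : HasDerivAt (fun s => h1 s / s ^ j - j * h s / s ^ (j + 1))
      (h2 (Complex.normSq w) / Complex.normSq w ^ j - 2 * j * h1 (Complex.normSq w) / Complex.normSq w ^ (j + 1) +
        j * (j + 1) * h (Complex.normSq w) / Complex.normSq w ^ (j + 2))
      (Complex.normSq (w + ((0 : ℝ) : ℂ) * a)) := by
    simpa using H1_deriv hs (hh _ hs) (hh1 _ hs) j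
  have f0 := e0.comp (0 : ℝ) (normSq_line w a)
  have f1 := e1.comp (0 : ℝ) (normSq_line w a)
  have f2 := re_line (pow_line w a (2 * j + 1))
  have f3 : HasDerivAt (fun t : ℝ => (((2 * j + 1 : ℕ) : ℂ) * (w + (t : ℂ) * a) ^ (2 * j) * b).re)
      (((2 * j + 1 : ℕ) : ℂ) * (((2 * j : ℕ) : ℂ) * w ^ (2 * j - 1) * a) * b).re 0 :=
    re_line (((pow_line w a (2 * j)).const_mul _).mul_const b)
  have f4 : HasDerivAt (fun t : ℝ => 2 * ((w + (t : ℂ) * a).re * b.re + (w + (t : ℂ) * a).im * b.im))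
      (2 * (a.re * b.re + a.im * b.im)) 0 := by
    have e : (fun t : ℝ => 2 * ((w + (t : ℂ) * a).re * b.re + (w + (t : ℂ) * a).im * b.im)) = fun t : ℝ =>
        2 * ((w.re + t * a.re) * b.re + (w.im + t * a.im) * b.im) := by
      funext t; simp
    rw [e]
    have hr : HasDerivAt (fun t : ℝ => w.re + t * a.re) a.re 0 := by
      simpa using ((hasDerivAt_id (0 : ℝ)).mul_const a.re).const_add w.re
    have hi : HasDerivAt (fun t : ℝ => w.im + t * a.im) a.im 0 := by
      simpa using ((hasDerivAt_id (0 : ℝ)).mul_const a.im).const_add w.im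
    exact ((hr.mul_const _).add (hi.mul_const _)).const_mul 2
  have g1 := ((f1.mul f4).mul f2).add (f0.mul f3)
  refine (g1.congr_of_eventuallyEq (Filter.Eventually.of_forall fun t => ?_)).congr_deriv ?_
  · simp only [gg, Function.comp_def, Pi.add_apply, Pi.mul_apply]
  · simp only [Function.comp_def, Pi.mul_apply, Complex.ofReal_zero, zero_mul, add_zero, TT, Nat.add_sub_cancel]
    ring

/-- the model function is smooth of class C^2 away from the origin -/
lemma model_contDiffAt (j : ℕ) {h : ℝ → ℝ} (hc : ContDiffOn ℝ 2 h (Set.Ioi 0)) {w : ℂ} (hw : w ≠ 0) :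
    ContDiffAt ℝ 2 (fun w : ℂ => h (Complex.normSq w) / Complex.normSq w ^ j * (w ^ (2 * j + 1)).re) w := by
  have hs : 0 < Complex.normSq w := Complex.normSq_pos.2 hw
  have h1 : ContDiffAt ℝ 2 h (Complex.normSq w) := hc.contDiffAt (Ioi_mem_nhds hs)
  have hn : ContDiffAt ℝ 2 (fun w : ℂ => Complex.normSq w) w := normSq_contDiff.contDiffAt
  have h2 : ContDiffAt ℝ 2 (fun w : ℂ => h (Complex.normSq w)) w := h1.comp w hn
  have h3 : ContDiffAt ℝ 2 (fun w : ℂ => Complex.normSq w ^ j) w := hn.pow j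
  have h4 : ContDiffAt ℝ 2 (fun w : ℂ => (w ^ (2 * j + 1)).re) w := by
    have : ContDiff ℝ 2 (fun w : ℂ => Complex.reCLM (w ^ (2 * j + 1))) :=
      Complex.reCLM.contDiff.comp (contDiff_id.pow _)
    simpa using this.contDiffAt
  exact (h2.div h3 (pow_ne_zero _ hs.ne')).mul h4

/-- second derivative of `f` in two directions -/
lemma iterated_eq (j : ℕ) {h h1 h2 : ℝ → ℝ} (hh : ∀ s, 0 < s → HasDerivAt h (h1 s) s)
    (hh1 : ∀ s, 0 < s → HasDerivAt h1 (h2 s) s) (hc : ContDiffOn ℝ 2 h (Set.Ioi 0))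
    {f : ℂ → ℝ} (hf : ∀ z : ℂ, z ≠ 0 → f z = h (Complex.normSq z) * (z ^ (2 * j + 1)).re / (Complex.normSq z) ^ j)
    {z : ℂ} (hz : z ≠ 0) (a b : ℂ) :
    iteratedFDeriv ℝ 2 f z ![a, b] = TT j h h1 h2 a b z := by
  have hev : ∀ w : ℂ, w ≠ 0 → f =ᶠ[nhds w]
      (fun w : ℂ => h (Complex.normSq w) / Complex.normSq w ^ j * (w ^ (2 * j + 1)).re) := by
    intro w hw
    filter_upwards [isOpen_ne.mem_nhds hw] with v hv
    rw [hf v hv]; ring
  have hfC : ∀ w : ℂ, w ≠ 0 → ContDiffAt ℝ 2 f w := fun w hw =>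
    (model_contDiffAt j hc hw).congr_of_eventuallyEq (hev w hw)
  -- first derivative
  have hline : ∀ (w b : ℂ), HasDerivAt (fun t : ℝ => w + (t : ℂ) * b) b 0 := fun w b => line_hasDerivAt w b 0
  have first : ∀ w : ℂ, w ≠ 0 → ∀ b : ℂ, fderiv ℝ f w b = gg j h h1 b w := by
    intro w hw b
    have hd : DifferentiableAt ℝ f w := (hfC w hw).differentiableAt (by norm_num)
    have e1 : HasFDerivAt f (fderiv ℝ f w) (w + ((0 : ℝ) : ℂ) * b) := by simpa using hd.hasFDerivAt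
    have e2 := e1.comp_hasDerivAt (0 : ℝ) (hline w b)
    have e3 : HasDerivAt (fun t : ℝ => f (w + (t : ℂ) * b)) (gg j h h1 b w) 0 := by
      refine (first_line j hh hw b).congr_of_eventuallyEq ?_
      have hcont : Filter.Tendsto (fun t : ℝ => w + (t : ℂ) * b) (nhds 0) (nhds w) := by
        have := (hline w b).continuousAt.tendsto
        simpa using this
      exact hcont.eventually (hev w hw)
    exact e2.unique e3
  have hdd : DifferentiableAt ℝ (fderiv ℝ f) z :=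
    ((hfC z hz).fderiv_right (m := 1) (by norm_num)).differentiableAt (by norm_num)
  have e1 : HasFDerivAt (fderiv ℝ f) (fderiv ℝ (fderiv ℝ f) z) (z + ((0 : ℝ) : ℂ) * a) := by
    simpa using hdd.hasFDerivAt
  have e2 := e1.comp_hasDerivAt (0 : ℝ) (hline z a)
  have e3 : HasDerivAt (fun t : ℝ => fderiv ℝ f (z + (t : ℂ) * a) b) (fderiv ℝ (fderiv ℝ f) z a b) 0 := by
    have := ((ContinuousLinearMap.apply ℝ ℝ b).hasFDerivAt
      (x := (fderiv ℝ f ∘ fun t : ℝ => z + (t : ℂ) * a) 0)).comp_hasDerivAt (0 : ℝ) e2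
    simpa [Function.comp_def] using this
  have e4 : HasDerivAt (fun t : ℝ => fderiv ℝ f (z + (t : ℂ) * a) b) (TT j h h1 h2 a b z) 0 := by
    refine (second_line j hh hh1 hz a b).congr_of_eventuallyEq ?_
    have hcont : Filter.Tendsto (fun t : ℝ => z + (t : ℂ) * a) (nhds 0) (nhds z) := by
      have := (hline z a).continuousAt.tendsto
      simpa using this
    filter_upwards [hcont.eventually (isOpen_ne.mem_nhds hz)] with t ht
    exact first _ ht b
  rw [iteratedFDeriv_two_apply]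
  simpa using e3.unique e4

/-- the operator on the explicit second derivative -/
lemma TT_Q (j : ℕ) (h h1 h2 : ℝ → ℝ) (z : ℂ) :
    ((TT j h h1 h2 1 1 z - TT j h h1 h2 Complex.I Complex.I z : ℝ) : ℂ) +
      2 * ((TT j h h1 h2 1 Complex.I z : ℝ) : ℂ) * Complex.I =
    4 * z ^ 2 * ((h2 (Complex.normSq z) / Complex.normSq z ^ j -
      2 * j * h1 (Complex.normSq z) / Complex.normSq z ^ (j + 1) +
      j * (j + 1) * h (Complex.normSq z) / Complex.normSq z ^ (j + 2) : ℝ) : ℂ) * (((z ^ (2 * j + 1)).re : ℝ) : ℂ) +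
    4 * (2 * j + 1) * ((h1 (Complex.normSq z) / Complex.normSq z ^ j -
      j * h (Complex.normSq z) / Complex.normSq z ^ (j + 1) : ℝ) : ℂ) * z * (starRingEnd ℂ (z ^ (2 * j))) +
    2 * (2 * j + 1) * ((h (Complex.normSq z) / Complex.normSq z ^ j : ℝ) : ℂ) *
      (starRingEnd ℂ ((2 * j : ℂ) * z ^ (2 * j - 1))) := by
  simp only [TT]
  generalize h2 (Complex.normSq z) / Complex.normSq z ^ j -
      2 * j * h1 (Complex.normSq z) / Complex.normSq z ^ (j + 1) +
      j * (j + 1) * h (Complex.normSq z) / Complex.normSq z ^ (j + 2) = H2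
  generalize h1 (Complex.normSq z) / Complex.normSq z ^ j -
      j * h (Complex.normSq z) / Complex.normSq z ^ (j + 1) = H1
  generalize h (Complex.normSq z) / Complex.normSq z ^ j = H
  have e1 : ((2 * j + 1 : ℕ) : ℂ) = ((2 * j + 1 : ℝ) : ℂ) := by push_cast; ring
  have e2 : ((2 * j : ℕ) : ℂ) = ((2 * j : ℝ) : ℂ) := by push_cast; ring
  have e3 : (2 * (j : ℂ) + 1) = ((2 * j + 1 : ℝ) : ℂ) := by push_cast; ring
  have e4 : (2 * (j : ℂ)) = ((2 * j : ℝ) : ℂ) := by push_cast; ring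
  rw [e1, e2, e3, e4]
  generalize (2 * (j : ℝ) + 1) = k
  generalize (2 * (j : ℝ)) = k2
  generalize (z ^ (2 * j + 1)).re = A
  generalize z ^ (2 * j - 1) = V
  generalize z ^ (2 * j) = W
  apply Complex.ext
  · simp [pow_two]
    ring
  · simp [pow_two]
    ring

theorem t_LW2 : LW2 := by
  intro j h h1 h2 hh hh1 hc f hf r hr θ
  set z : ℂ := (r : ℂ) * Complex.exp ((θ : ℂ) * Complex.I) with hzdef
  have hr0 : (r : ℂ) ≠ 0 := by exact_mod_cast hr.ne'
  have hz : z ≠ 0 := mul_ne_zero hr0 (Complex.exp_ne_zero _)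
  have key := TT_Q j h h1 h2 z
  have hQ : Q f z = ((TT j h h1 h2 1 1 z - TT j h h1 h2 Complex.I Complex.I z : ℝ) : ℂ) +
      2 * ((TT j h h1 h2 1 Complex.I z : ℝ) : ℂ) * Complex.I := by
    unfold Q
    rw [iterated_eq j hh hh1 hc hf hz, iterated_eq j hh hh1 hc hf hz, iterated_eq j hh hh1 hc hf hz]
  rw [hQ, key]
  have hn : Complex.normSq z = r ^ 2 := by
    rw [hzdef, map_mul, Complex.normSq_ofReal, Complex.normSq_eq_norm_sq, Complex.norm_exp_ofReal_mul_I]
    ring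
  rw [hn]
  -- powers of z
  have hpow : ∀ n : ℕ, z ^ n = (r : ℂ) ^ n * Complex.exp (((n * θ : ℝ) : ℂ) * Complex.I) := by
    intro n
    rw [hzdef, mul_pow, ← Complex.exp_nat_mul]
    congr 2
    push_cast; ring
  have hconj : ∀ n : ℕ, starRingEnd ℂ (z ^ n) = (r : ℂ) ^ n * Complex.exp (-(((n * θ : ℝ) : ℂ) * Complex.I)) := by
    intro n
    rw [hpow, map_mul, map_pow, Complex.conj_ofReal, ← Complex.exp_conj, map_mul, Complex.conj_ofReal,
      Complex.conj_I, mul_neg]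
  have hre : (z ^ (2 * j + 1)).re = r ^ (2 * j + 1) * Real.cos ((2 * j + 1 : ℝ) * θ) := by
    rw [hpow]
    have : ((r : ℂ) ^ (2 * j + 1)) = ((r ^ (2 * j + 1) : ℝ) : ℂ) := by push_cast; ring
    rw [this, Complex.re_ofReal_mul, Complex.exp_ofReal_mul_I_re]
    push_cast; ring
  have hX : Complex.exp ((2 * θ : ℂ) * Complex.I) *
      (((Real.cos ((2 * j + 1 : ℝ) * θ) : ℝ) : ℂ) - ((Real.sin ((2 * j + 1 : ℝ) * θ) : ℝ) : ℂ) * Complex.I) =
      Complex.exp ((1 - 2 * j : ℂ) * θ * Complex.I) := by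
    have : (((Real.cos ((2 * j + 1 : ℝ) * θ) : ℝ) : ℂ) - ((Real.sin ((2 * j + 1 : ℝ) * θ) : ℝ) : ℂ) * Complex.I) =
        Complex.exp (-(((2 * j + 1 : ℝ) * θ : ℝ) : ℂ) * Complex.I) := by
      rw [Complex.exp_mul_I, Complex.cos_neg, Complex.sin_neg, Complex.ofReal_cos, Complex.ofReal_sin]
      ring
    rw [this, ← Complex.exp_add]
    congr 1
    push_cast; ring
  have h1' : z * starRingEnd ℂ (z ^ (2 * j)) = (r : ℂ) ^ (2 * j + 1) * Complex.exp ((1 - 2 * j : ℂ) * θ * Complex.I) := by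
    rw [hconj, hzdef]
    have : Complex.exp ((1 - 2 * j : ℂ) * θ * Complex.I) = Complex.exp ((θ : ℂ) * Complex.I) *
        Complex.exp (-((((2 * j : ℕ) * θ : ℝ) : ℂ) * Complex.I)) := by
      rw [← Complex.exp_add]; congr 1; push_cast; ring
    rw [this]; ring
  have h2' : starRingEnd ℂ ((2 * j : ℂ) * z ^ (2 * j - 1)) =
      (2 * j : ℂ) * ((r : ℂ) ^ (2 * j) / r) * Complex.exp ((1 - 2 * j : ℂ) * θ * Complex.I) := by
    rw [map_mul, hconj]
    rcases Nat.eq_zero_or_pos j with hj | hj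
    · subst hj; simp
    · have e : 2 * j = (2 * j - 1) + 1 := by omega
      have e1 : (r : ℂ) ^ (2 * j) / r = (r : ℂ) ^ (2 * j - 1) := by
        conv_lhs => rw [e, pow_succ]
        rw [mul_div_assoc, div_self hr0, mul_one]
      rw [e1]
      have e2 : Complex.exp (-((((2 * j - 1 : ℕ) * θ : ℝ) : ℂ) * Complex.I)) =
          Complex.exp ((1 - 2 * j : ℂ) * θ * Complex.I) := by
        congr 1
        have : ((2 * j - 1 : ℕ) : ℝ) = 2 * j - 1 := by
          rw [Nat.cast_sub (by omega)]; push_cast; ring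
        rw [this]; push_cast; ring
      rw [e2]
      have e3 : starRingEnd ℂ (2 * (j : ℂ)) = 2 * (j : ℂ) := by
        have : (2 * (j : ℂ)) = ((2 * j : ℝ) : ℂ) := by push_cast; ring
        rw [this, Complex.conj_ofReal]
      rw [e3]; ring
  have hz2 : z ^ 2 = (r : ℂ) ^ 2 * Complex.exp ((2 * θ : ℂ) * Complex.I) := by
    rw [hpow]; push_cast; ring_nf
  rw [mul_assoc (4 * (2 * (j : ℂ) + 1) * _) z, h1', h2', hz2, hre, ← hX]
  generalize Complex.exp ((2 * θ : ℂ) * Complex.I) = X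
  generalize h (r ^ 2) = a0
  generalize h1 (r ^ 2) = a1
  generalize h2 (r ^ 2) = a2
  have hR : (r : ℂ) ^ (2 * j) ≠ 0 := pow_ne_zero _ hr0
  push_cast
  have p1 : ((r : ℂ) ^ 2) ^ j = (r : ℂ) ^ (2 * j) := by rw [← pow_mul]
  have p2 : ((r : ℂ) ^ 2) ^ (j + 1) = (r : ℂ) ^ (2 * j) * r ^ 2 := by rw [pow_succ, p1]
  have p3 : ((r : ℂ) ^ 2) ^ (j + 2) = (r : ℂ) ^ (2 * j) * r ^ 4 := by
    rw [pow_add, p1]; ring
  have p4 : (r : ℂ) ^ (2 * j + 1) = (r : ℂ) ^ (2 * j) * r := pow_succ _ _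
  rw [p2, p3, p1, p4]
  generalize (r : ℂ) ^ (2 * j) = R at hR
  generalize Complex.cos ((2 * (j : ℂ) + 1) * θ) = C
  generalize Complex.sin ((2 * (j : ℂ) + 1) * θ) = Sn
  field_simp
  ring

end

end Pool.Agent.W2helper10.LW
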